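import Mathlib
import Pool.Agent.H151.ExtMain

/-!
A continuous image of an extendial compact space need not be extendial (not even t-extendial).
The example: `X = (ω+1) × D`, where `D` is the double arrow space; `Y` is obtained from `X` by
gluing, on the level `n`, the two halves of every split point that belongs to the `n`-th member of
a partition of `ℝ` into countably many everywhere non-meagre sets.
-/

set_option autoImplicit false

open Set Topology

namespace Pool.Agent.Results.MP_a74b27_gt.ImageNotExtendial

/-- There is an extendial (hence t-extendial) compact Hausdorff space `X` and a continuous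
surjection of `X` onto a compact Hausdorff space `Y` which is not t-extendial (hence not
extendial). -/
theorem result :
    ∃ (X Y : Type) (_ : TopologicalSpace X) (_ : TopologicalSpace Y) (f : X → Y),
      CompactSpace X ∧ T2Space X ∧ CompactSpace Y ∧ T2Space Y ∧
      Continuous f ∧ Function.Surjective f ∧
      Pool.Agent.H151.Ext.Extendial X ∧ Pool.Agent.H151.Ext.TExtendial X ∧
      ¬ Pool.Agent.H151.Ext.Extendial Y ∧ ¬ Pool.Agent.H151.Ext.TExtendial Y := by
  obtain ⟨X, Y, tX, tY, f, hX, hX2, hY2, hf, hfs, hE, hN⟩ := Pool.Agent.H151.Ext.main_ext
  exact ⟨X, Y, tX, tY, f, hX, hX2, hfs.compactSpace hf, hY2, hf, hfs, hE, hE.tExtendial,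
    fun h => hN h.tExtendial, hN⟩

end Pool.Agent.Results.MP_a74b27_gt.ImageNotExtendial
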